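import Pool.Agent.helper54.XP.SpecL

/-!
# Module ADH of project xp: (MP_af9036_an): the normalised differential
-/

set_option autoImplicit false

open Complex Metric Set Filter Topology MeasureTheory XP
open V3S (UF)

noncomputable section

namespace XPL

theorem ADH_H (D : Dat) : D.H = fun z => (D.s : ℂ) * D.H0 z := rfl

theorem ADH_TT (D : Dat) (z : ℂ) : PPS.TT D.f D.H z = (D.s : ℂ) * PPS.TT D.f D.H0 z := by
  unfold PPS.TT
  rw [← Multiset.sum_map_mul_left]
  refine congrArg Multiset.sum (Multiset.map_congr rfl fun y _ => ?_)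
  unfold Dat.H
  ring

theorem ADH_er (D : Dat) (z : ℂ) : XPS.er D.f D.H z = (D.s : ℂ) * XPS.er D.f D.H0 z := by
  unfold XPS.er
  rw [ADH_TT]
  unfold Dat.H
  ring

theorem ADH_Df (D : Dat) (hs : 0 ≤ D.s) (z : ℂ) : XPS.Df D.f D.H z = D.s * XPS.Df D.f D.H0 z := by
  unfold XPS.Df
  rw [ADH_TT, norm_mul, Complex.norm_real, Real.norm_of_nonneg hs, mul_sub,
    ← Multiset.sum_map_mul_left]
  congr 1
  refine congrArg Multiset.sum (Multiset.map_congr rfl fun y _ => ?_)
  unfold Dat.H
  rw [norm_mul, Complex.norm_real, Real.norm_of_nonneg hs]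
  ring

/-- **ADH**: the normalised differential. -/
theorem ADH : ADH_stmt := by
  intro n C A D hD
  have hfin : D.PP.Finite := hD.eng.ad.fin
  have hopen : IsOpen (D.PPᶜ) := hfin.isClosed.isOpen_compl
  have hdif : DifferentiableOn ℂ D.H D.PPᶜ := hD.eng.ad.dif.const_mul _
  have hdat : ∀ z, z ∉ D.PP → DifferentiableAt ℂ D.H z := fun z hz =>
    (hdif z hz).differentiableAt (hopen.mem_nhds hz)
  have hR : 0 < D.R 0 := hD.Rpos 0
  have hsg : D.sg ≠ 0 := by
    unfold Dat.sg
    exact_mod_cast hR.ne'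
  refine ⟨⟨hD.eng.ad.deg, hfin, hD.eng.ad.inv, hdif⟩, hdat, ?_, fun x => rfl, ?_, ?_⟩
  · intro x hx
    have h1 : DifferentiableAt ℂ D.zz x := by
      unfold Dat.zz
      fun_prop
    have h2 : DifferentiableAt ℂ (fun x => D.H (D.zz x)) x := (hdat _ hx).comp x h1
    exact h2.const_mul (D.sg ^ 2)
  · intro x hx
    have h1 : D.zz x ∈ ball (D.b 0) (A * D.R 0) := by
      rw [mem_ball, dist_eq_norm]
      have : D.zz x - D.b 0 = D.sg * x := by
        unfold Dat.zz
        ring
      rw [this, norm_mul]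
      have h2 : ‖D.sg‖ = D.R 0 := by
        unfold Dat.sg
        rw [Complex.norm_real, Real.norm_of_nonneg hR.le]
      rw [h2, mul_comm]
      exact mul_lt_mul_of_pos_right hx hR
    obtain ⟨h2, -, h3⟩ := hD.invi 0 _ h1
    refine ⟨h2, h3, ?_⟩
    constructor
    · intro h4
      rcases h4 with ⟨l, hl⟩ | h4
      · refine ⟨l, ?_⟩
        unfold Dat.p Dat.xx
        rw [hl]
        unfold Dat.zz
        rw [add_sub_cancel_left, mul_div_cancel_left₀ _ hsg]
      · exact absurd h4 h2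
    · rintro ⟨l, hl⟩
      refine Or.inl ⟨l, ?_⟩
      rw [hl]
      unfold Dat.p Dat.xx Dat.zz
      rw [mul_div_cancel₀ _ hsg]
      ring
  · intro hs
    have h1 : ∀ z : ℂ, ENNReal.ofReal (XPS.Df D.f D.H z + 2 * ‖XPS.er D.f D.H z‖) =
        ENNReal.ofReal D.s * ENNReal.ofReal (XPS.Df D.f D.H0 z + 2 * ‖XPS.er D.f D.H0 z‖) := by
      intro z
      rw [← ENNReal.ofReal_mul hs, ADH_Df D hs, ADH_er, norm_mul, Complex.norm_real,
        Real.norm_of_nonneg hs]
      congr 1
      ring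
    simp_rw [h1]
    rw [lintegral_const_mul' _ _ ENNReal.ofReal_ne_top, ENNReal.ofReal_mul hs]
    gcongr
    exact hD.eng.hE

end XPL
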