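import Pool.Agent.helper60.XP.SpecT

/-!
# Module RLT of project xp: (MP_af9036_an): a ratio with `|1 - τ| = 1 - |τ|` is one
-/

set_option autoImplicit false

open Complex Metric Set Filter Topology MeasureTheory
open V3S (UF)
open XP

noncomputable section

namespace XPT

/-- **RLT**: a holomorphic function with `|1 - τ| = 1 - |τ|` and comparison at `0`. -/
theorem RLT : RLT_stmt := by
  intro B E ψ d ζ δ hδ hE hE0 hB hψ hψ0 hψ1 hζ hall
  have hζ0 : ζ ≠ 0 := by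
    intro h
    rw [h, norm_zero] at hζ
    exact zero_ne_one hζ
  have hball : ball (0 : ℂ) δ ∈ 𝓝 (0 : ℂ) := ball_mem_nhds 0 hδ
  have hψat : DifferentiableAt ℂ ψ 0 := hψ.differentiableAt hball
  have hder : HasDerivAt ψ ζ 0 := by
    rw [← hψ1]
    exact hψat.hasDerivAt
  have hdsl : DifferentiableOn ℂ (dslope ψ 0) (ball 0 δ) :=
    (Complex.differentiableOn_dslope hball).mpr hψ
  have hds0 : dslope ψ 0 0 = ζ := by rw [dslope_same, hψ1]
  have hdd : DifferentiableOn ℂ (deriv ψ) (ball 0 δ) := hψ.deriv isOpen_ball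
  set g : ℂ → ℂ := fun x => deriv ψ x ^ 2 * dslope ψ 0 x ^ d * E (ψ x) / E x with hg
  have hψc : Tendsto ψ (𝓝 0) (𝓝 0) := by
    have := hψat.continuousAt.tendsto
    rwa [hψ0] at this
  have hEan : ∀ᶠ y in 𝓝 (0 : ℂ), AnalyticAt ℂ E y := hE.eventually_analyticAt
  have hEne : ∀ᶠ y in 𝓝 (0 : ℂ), E y ≠ 0 := hE.continuousAt.eventually_ne hE0
  have hdsne : ∀ᶠ y in 𝓝 (0 : ℂ), dslope ψ 0 y ≠ 0 := by
    have h1 : ContinuousAt (dslope ψ 0) 0 := (hdsl.differentiableAt hball).continuousAt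
    refine h1.eventually_ne ?_
    rw [hds0]
    exact hζ0
  have hgd : ∀ᶠ z in 𝓝 (0 : ℂ), DifferentiableAt ℂ g z := by
    filter_upwards [hEan, hEne, hdsne, hψc.eventually hEan, isOpen_ball.mem_nhds
      (mem_ball_self hδ)] with z h1 h2 h3 h4 h5
    have h6 : ball (0 : ℂ) δ ∈ 𝓝 z := isOpen_ball.mem_nhds h5
    have h7 : DifferentiableAt ℂ (fun x => E (ψ x)) z :=
      h4.differentiableAt.comp z (hψ.differentiableAt h6)
    exact ((((hdd.differentiableAt h6).pow 2).mul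
      ((hdsl.differentiableAt h6).zpow (Or.inl h3))).mul h7).div h1.differentiableAt h2
  have hg0 : ‖g 0‖ = 1 := by
    have h1 : g 0 = ζ ^ 2 * ζ ^ d := by
      simp only [hg]
      rw [hψ1, hds0, hψ0, mul_div_assoc, div_self hE0, mul_one]
    rw [h1, norm_mul, norm_pow, norm_zpow, hζ, one_pow, one_zpow, mul_one]
  have hgB : ∀ᶠ x in 𝓝[≠] (0 : ℂ), g x = deriv ψ x ^ 2 * B (ψ x) / B x := by
    have h1 : Tendsto ψ (𝓝[≠] (0 : ℂ)) (𝓝[≠] (0 : ℂ)) := by
      have := hder.tendsto_nhdsNE hζ0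
      rwa [hψ0] at this
    have h2 : ∀ᶠ y in 𝓝[≠] (0 : ℂ), E y ≠ 0 := hEne.filter_mono nhdsWithin_le_nhds
    filter_upwards [hB, h1.eventually hB, h2, self_mem_nhdsWithin] with x h3 h4 h5 h6
    have h7 : x ≠ 0 := h6
    simp only [hg]
    rw [h3, h4, dslope_of_ne _ h7, slope_def_field, hψ0, sub_zero, sub_zero, div_zpow]
    have h8 : x ^ d ≠ 0 := zpow_ne_zero d h7
    field_simp
  have hin : ∀ᶠ x in 𝓝[≠] (0 : ℂ), x ∈ ball (0 : ℂ) δ :=
    nhdsWithin_le_nhds (ball_mem_nhds 0 hδ)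
  have hmin : IsLocalMin (norm ∘ g) 0 := by
    have h1 : ∀ᶠ x in 𝓝[≠] (0 : ℂ), (norm ∘ g) 0 ≤ (norm ∘ g) x := by
      filter_upwards [hgB, hin, self_mem_nhdsWithin] with x h2 h3 h4
      obtain ⟨-, h5, -, h6, h7, h8⟩ := hall x h3 h4
      have h9 : ‖B x / (deriv ψ x ^ 2 * B (ψ x))‖ ≤ 1 := by
        have := norm_nonneg (1 - B x / (deriv ψ x ^ 2 * B (ψ x)))
        linarith
      have h10 : g x = (B x / (deriv ψ x ^ 2 * B (ψ x)))⁻¹ := by
        rw [h2, inv_div]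
      simp only [Function.comp_apply]
      rw [hg0, h10, norm_inv]
      have h11 : 0 < ‖B x / (deriv ψ x ^ 2 * B (ψ x))‖ :=
        norm_pos_iff.mpr (div_ne_zero h5 (mul_ne_zero (pow_ne_zero 2 h7) h6))
      exact (one_le_inv₀ h11).mpr h9
    rw [eventually_nhdsWithin_iff] at h1
    filter_upwards [h1] with x hx
    by_cases h : x = 0
    · rw [h]
    · exact hx h
  have hconst : ∀ᶠ z in 𝓝 (0 : ℂ), g z = g 0 := by
    rcases Complex.eventually_eq_or_eq_zero_of_isLocalMin_norm hgd hmin with h | h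
    · exact h
    · rw [h, norm_zero] at hg0
      exact absurd hg0 zero_ne_one
  filter_upwards [hgB, hin, self_mem_nhdsWithin,
    hconst.filter_mono nhdsWithin_le_nhds] with x h2 h3 h4 h5
  obtain ⟨-, h6, -, h7, h8, h9⟩ := hall x h3 h4
  have h10 : g x = (B x / (deriv ψ x ^ 2 * B (ψ x)))⁻¹ := by
    rw [h2, inv_div]
  have h11 : ‖B x / (deriv ψ x ^ 2 * B (ψ x))‖ = 1 := by
    have h12 : ‖g x‖ = 1 := by rw [h5, hg0]
    rw [h10, norm_inv] at h12
    exact inv_eq_one.mp h12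
  rw [h11, sub_self] at h9
  have h12 : B x / (deriv ψ x ^ 2 * B (ψ x)) = 1 := (sub_eq_zero.mp (norm_eq_zero.mp h9)).symm
  exact ((div_eq_one_iff_eq (mul_ne_zero (pow_ne_zero 2 h8) h7)).mp h12).symm

end XPT
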